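import Mathlib
import Pool.Agent.Y995.ST1.Fin2

/-!
Pisier's question for embeddings into `ℓ_∞^N` with arbitrary distortion, with an explicit constant,
and its structural form without cotype: spaces which embed into `ℓ_∞^N` with `N` less than
`exp (c n)` contain copies (even almost isometric ones) of `ℓ_∞^k`.
-/

set_option autoImplicit false

namespace Pool.Agent.Results.MP_3d048b_an.LInftyCopies

open Pool.Agent.Y995.ST1 (cotype_part copies_part iso_part char_part exp100)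

/-- `X` has Rademacher cotype `q` with constant `K`. -/
def HasCotype (X : Type) [NormedAddCommGroup X] [NormedSpace ℝ X] (q K : ℝ) : Prop :=
  ∀ (m : ℕ) (x : Fin m → X),
    (∑ i, ‖x i‖ ^ q) ^ (1/q) ≤
      K * Real.sqrt ((∑ ε : Fin m → Bool, ‖∑ i, (if ε i then (1:ℝ) else -1) • x i‖ ^ 2) / 2 ^ m)

/-- `X` embeds into `ℓ_∞^N` with distortion `D`. -/
def Embeds (X : Type) [NormedAddCommGroup X] [NormedSpace ℝ X] (N : ℕ) (D : ℝ) : Prop :=
  ∃ T : X →ₗ[ℝ] (Fin N → ℝ), ∀ x, ‖x‖ ≤ ‖T x‖ ∧ ‖T x‖ ≤ D * ‖x‖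

theorem result : ∃ A : ℝ, 1 ≤ A ∧
    -- cotype: Pisier's question, every distortion, explicit constant
    (∀ (q K D : ℝ), 2 ≤ q →
      ∀ (X : Type) [NormedAddCommGroup X] [NormedSpace ℝ X] [FiniteDimensional ℝ X] (N : ℕ),
        2 ≤ Module.finrank ℝ X → HasCotype X q K → Embeds X N D →
        Real.exp (Real.exp (-(q * (A * K * D) ^ q * Real.log (A * K * D))) *
          Module.finrank ℝ X) ≤ N) ∧
    -- no cotype: copies of `ℓ_∞^k` with distortion `A * D`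
    (∀ (k : ℕ) (D : ℝ), 1 ≤ k →
      ∀ (X : Type) [NormedAddCommGroup X] [NormedSpace ℝ X] [FiniteDimensional ℝ X] (N : ℕ),
        2 ≤ Module.finrank ℝ X → Embeds X N D →
        (N : ℝ) < Real.exp (Real.exp (-(A * (D * k) * (1 + Real.log (D * k)))) *
          Module.finrank ℝ X) →
        ∃ y : Fin k → X, ∀ a : Fin k → ℝ,
          ‖a‖ ≤ ‖∑ i, a i • y i‖ ∧ ‖∑ i, a i • y i‖ ≤ A * D * ‖a‖) ∧
    -- no cotype: almost isometric copies of `ℓ_∞^k`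
    (∀ (k : ℕ) (D ε : ℝ), 1 ≤ k → 0 < ε → ε ≤ 1 →
      ∀ (X : Type) [NormedAddCommGroup X] [NormedSpace ℝ X] [FiniteDimensional ℝ X] (N : ℕ),
        2 ≤ Module.finrank ℝ X → Embeds X N D →
        (N : ℝ) < Real.exp (Real.exp (-Real.exp (A * (1 + Real.log D) * (1 + Real.log k) / ε)) *
          Module.finrank ℝ X) →
        ∃ y : Fin k → X, ∀ a : Fin k → ℝ,
          (1 - ε) * ‖a‖ ≤ ‖∑ i, a i • y i‖ ∧ ‖∑ i, a i • y i‖ ≤ ‖a‖) ∧
    -- the spaces which contain all `ℓ_∞^k` uniformly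
    (∀ (Z : Type) [NormedAddCommGroup Z] [NormedSpace ℝ Z] (D : ℝ), 1 < D →
      ((∀ (k : ℕ) (ε : ℝ), 0 < ε → ∃ y : Fin k → Z, ∀ a : Fin k → ℝ,
          (1 - ε) * ‖a‖ ≤ ‖∑ i, a i • y i‖ ∧ ‖∑ i, a i • y i‖ ≤ ‖a‖) ↔
        ∀ c : ℝ, 0 < c → ∃ (E : Submodule ℝ Z) (N : ℕ), FiniteDimensional ℝ E ∧
          2 ≤ Module.finrank ℝ E ∧ Embeds E N D ∧
          (N : ℝ) < Real.exp (c * Module.finrank ℝ E))) := by
  have he := exp100
  obtain ⟨A', hA'⟩ : ∃ A' : ℝ, A' = 34 * Real.exp 100 := ⟨_, rfl⟩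
  obtain ⟨A1, hA1⟩ : ∃ A1 : ℝ, A1 = 3000 * A' * (1 + Real.log A') := ⟨_, rfl⟩
  have hA'1 : 1 ≤ A' := by rw [hA']; linarith
  have hlA' : 0 ≤ Real.log A' := Real.log_nonneg hA'1
  have hA11 : 1 ≤ A1 := by rw [hA1]; nlinarith
  obtain ⟨A, hA⟩ : ∃ A : ℝ, A = max Pool.Agent.Y995.ST1.AA (A1 + 416) := ⟨_, rfl⟩
  have h1 : Pool.Agent.Y995.ST1.AA ≤ A := by rw [hA]; exact le_max_left _ _
  have h2 : A1 + 416 ≤ A := by rw [hA]; exact le_max_right _ _
  have h3 : 3000 * A' * (1 + Real.log A') ≤ A := by rw [← hA1]; linarith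
  have h4 : Real.log A1 + 416 ≤ A := by
    have := Real.log_le_sub_one_of_pos (by linarith : 0 < A1)
    linarith
  have h5 : 8 * Real.exp 100 ≤ A := by
    refine le_trans ?_ h1
    unfold Pool.Agent.Y995.ST1.AA
    nlinarith
  have hiso : ∀ (k : ℕ) (D ε : ℝ), 1 ≤ k → 0 < ε → ε ≤ 1 →
      ∀ (X : Type) [NormedAddCommGroup X] [NormedSpace ℝ X] [FiniteDimensional ℝ X] (N : ℕ),
        2 ≤ Module.finrank ℝ X → Embeds X N D →
        (N : ℝ) < Real.exp (Real.exp (-Real.exp (A * (1 + Real.log D) * (1 + Real.log k) / ε)) *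
          Module.finrank ℝ X) →
        ∃ y : Fin k → X, ∀ a : Fin k → ℝ,
          (1 - ε) * ‖a‖ ≤ ‖∑ i, a i • y i‖ ∧ ‖∑ i, a i • y i‖ ≤ ‖a‖ :=
    fun k D ε hk hε hε1 X _ _ _ N hn hemb hN =>
      iso_part hk hε hε1 hn hemb hA' hA1.ge hA11 h4 hN
  refine ⟨A, by linarith, ?_, ?_, hiso, ?_⟩
  · intro q K D hq X _ _ _ N hn hcot hemb
    exact cotype_part hq hn hcot hemb h1
  · intro k D hk X _ _ _ N hn hemb hN
    obtain ⟨y, hy⟩ := copies_part hk hn hemb hA' h3 hN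
    have : Nontrivial X := Module.nontrivial_of_finrank_pos (R := ℝ) (by omega)
    obtain ⟨x0, hx0⟩ := exists_ne (0 : X)
    have hD := Pool.Agent.Y995.ST1.one_le_D hemb x0 hx0
    refine ⟨y, fun a => ⟨(hy a).1, (hy a).2.trans ?_⟩⟩
    exact mul_le_mul_of_nonneg_right (mul_le_mul_of_nonneg_right h5 (by linarith)) (norm_nonneg _)
  · intro Z _ _ D hD
    exact char_part A hiso Z D hD

end Pool.Agent.Results.MP_3d048b_an.LInftyCopies
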